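import Pool.Agent.L0h80.TC.Low

/-!
The degree of the halting problem is the degree of topological categoricity of the discrete
space `ℕ`.
-/

namespace Pool.Agent.Results.MP_55a818_lc.HaltingDegree

open Pool.Agent.Helper583.TT (CMS)
open Pool.Agent.Helper583.TC (Red)
open Pool.Agent.H109R3.TC

/-- the characteristic function of a set -/
noncomputable def chi (A : ℕ → Prop) (n : ℕ) : ℕ :=
  open Classical in if A n then 1 else 0

/-- There are a noncomputable c.e. set `A` and a computable Polish space `X` such that `X` is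
`A`-categorical and `A` is recursive in every oracle `a` relative to which `X` is categorical. The
space is the discrete space `ℕ`, the set is the halting set, and the same holds when the
homeomorphism and its inverse are both required to be computable relative to the oracle. -/
theorem result : ∃ A : ℕ → Prop, REPred A ∧ ¬ ComputablePred A ∧
    (∀ z : ℕ, A z ↔ ((Denumerable.ofNat Nat.Partrec.Code z.unpair.1).eval z.unpair.2).Dom) ∧
    (∃ M : CMS, Nonempty (M.Y ≃ₜ ℕ)) ∧
    (Cat ℕ (chi A) ∧ ∀ a : ℕ → ℕ, Cat ℕ a → Red (chi A) a) ∧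
    (CatBoth ℕ (chi A) ∧ ∀ a : ℕ → ℕ, CatBoth ℕ a → Red (chi A) a) := by
  obtain ⟨h1, h2, h3⟩ := Pool.Agent.L0h80.TC.main_N
  have hchi : chi (fun z : ℕ =>
      ((Denumerable.ofNat Nat.Partrec.Code z.unpair.1).eval z.unpair.2).Dom) =
      Pool.Agent.Helper743.K := rfl
  refine ⟨fun z : ℕ => ((Denumerable.ofNat Nat.Partrec.Code z.unpair.1).eval z.unpair.2).Dom,
    Pool.Agent.Helper743.K_re, ?_, fun z => Iff.rfl, h1, ?_, ?_⟩
  · intro h
    apply Pool.Agent.Helper743.K_not_computable
    rw [← hchi]
    obtain ⟨hd, hc⟩ := h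
    have h4 := Computable.cond hc (Computable.const 1) (Computable.const 0)
    refine h4.of_eq fun n => ?_
    unfold chi
    by_cases hn : ((Denumerable.ofNat Nat.Partrec.Code n.unpair.1).eval n.unpair.2).Dom
    · rw [decide_eq_true hn, if_pos hn]
      rfl
    · rw [decide_eq_false hn, if_neg hn]
      rfl
  · rw [hchi]
    exact ⟨h2.cat, h3⟩
  · rw [hchi]
    exact ⟨h2, fun a ha => h3 a ha.cat⟩

end Pool.Agent.Results.MP_55a818_lc.HaltingDegree
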